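import Pool.Agent.Y53.DG.Stm

/-! Project DG (helper53): DG-SEL (helper555). -/

set_option autoImplicit false

namespace Pool.Agent.Y555.DG.Sel

open Finset Equiv Equiv.Perm Pool.Agent.H84R2.Bab Pool.Agent.Y53.DG

/-- a set of at most `c s` elements is a disjoint union of `c` sets of at most `s` elements -/
theorem parts {Ω : Type} [DecidableEq Ω] (M : Finset Ω) (c s : ℕ) (hM : M.card ≤ c * s) :
    ∃ P : Fin c → Finset Ω, (∀ k, P k ⊆ M) ∧ (∀ k k', k ≠ k' → Disjoint (P k) (P k')) ∧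
      (∀ k, (P k).card ≤ s) ∧ ∀ x ∈ M, ∃ k, x ∈ P k := by
  classical
  set idx : Ω → ℕ := fun x => if h : x ∈ M then (M.equivFin ⟨x, h⟩ : ℕ) else 0 with hidx
  have h1 : ∀ x ∈ M, idx x < M.card := by
    intro x hx
    simp only [hidx, hx, dite_true]
    exact (M.equivFin ⟨x, hx⟩).2
  have h2 : ∀ x ∈ M, ∀ y ∈ M, idx x = idx y → x = y := by
    intro x hx y hy h
    simp only [hidx, hx, hy, dite_true] at h
    have h3 := M.equivFin.injective (Fin.ext h)
    exact congrArg Subtype.val h3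
  rcases Nat.eq_zero_or_pos s with rfl | hs
  · have hM0 : M = ∅ := by
      rw [← Finset.card_eq_zero]
      simpa using hM
    exact ⟨fun _ => ∅, by simp, by simp, by simp, by simp [hM0]⟩
  refine ⟨fun k => M.filter fun x => idx x / s = k, fun k => Finset.filter_subset _ _,
    fun k k' hkk' => ?_, fun k => ?_, fun x hx => ?_⟩
  · rw [Finset.disjoint_left]
    intro x hx hx'
    have e1 := (Finset.mem_filter.mp hx).2
    have e2 := (Finset.mem_filter.mp hx').2
    exact hkk' (Fin.ext (e1.symm.trans e2))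
  · refine le_trans (Finset.card_le_card_of_injOn (t := range s) (fun x => idx x % s) ?_ ?_)
      (Finset.card_range s).le
    · intro x _
      simpa using Nat.mod_lt _ hs
    · intro x hx y hy hxy
      have hx' := Finset.mem_filter.mp (Finset.mem_coe.mp hx)
      have hy' := Finset.mem_filter.mp (Finset.mem_coe.mp hy)
      apply h2 x hx'.1 y hy'.1
      have e1 := Nat.div_add_mod (idx x) s
      have e2 := Nat.div_add_mod (idx y) s
      have e3 : idx x % s = idx y % s := hxy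
      rw [hx'.2, e3] at e1
      rw [hy'.2] at e2
      omega
  · have h3 : idx x / s < c := by
      apply Nat.div_lt_of_lt_mul
      have := h1 x hx
      rw [mul_comm]
      omega
    exact ⟨⟨idx x / s, h3⟩, Finset.mem_filter.mpr ⟨hx, rfl⟩⟩

/-- pairwise disjoint subsets with given sizes -/
theorem fresh {Ω ι : Type} [DecidableEq Ω] [DecidableEq ι] (f : ι → ℕ) (Z : Finset Ω)
    (s : Finset ι) : ∑ i ∈ s, f i ≤ Z.card →
    ∃ F : ι → Finset Ω, (∀ i ∈ s, F i ⊆ Z ∧ (F i).card = f i) ∧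
      ∀ i ∈ s, ∀ j ∈ s, i ≠ j → Disjoint (F i) (F j) := by
  induction s using Finset.induction_on with
  | empty => exact fun _ => ⟨fun _ => ∅, by simp, by simp⟩
  | insert a s ha ih =>
    intro h
    rw [Finset.sum_insert ha] at h
    obtain ⟨F, h1, h2⟩ := ih (by omega)
    have h3 : (s.biUnion F).card ≤ ∑ i ∈ s, f i :=
      Finset.card_biUnion_le.trans (le_of_eq (Finset.sum_congr rfl fun i hi => (h1 i hi).2))
    have h4 : f a ≤ (Z \ s.biUnion F).card := by
      have := Finset.le_card_sdiff (s.biUnion F) Z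
      omega
    obtain ⟨T, hT1, hT2⟩ := Finset.exists_subset_card_eq h4
    have h5 : ∀ i ∈ s, Function.update F a T i = F i := fun i hi =>
      Function.update_of_ne (fun (h : i = a) => ha (by rw [← h]; exact hi)) _ _
    have h6 : ∀ i ∈ s, Disjoint T (F i) := by
      intro i hi
      rw [Finset.disjoint_left]
      intro x hx hxi
      exact (Finset.mem_sdiff.mp (hT1 hx)).2 (Finset.mem_biUnion.mpr ⟨i, hi, hxi⟩)
    refine ⟨Function.update F a T, fun i hi => ?_, fun i hi j hj hij => ?_⟩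
    · rcases Finset.mem_insert.mp hi with rfl | hi'
      · rw [Function.update_self]
        exact ⟨hT1.trans Finset.sdiff_subset, hT2⟩
      · rw [h5 i hi']
        exact h1 i hi'
    · rcases Finset.mem_insert.mp hi with rfl | hi' <;> rcases Finset.mem_insert.mp hj with rfl | hj'
      · exact absurd rfl hij
      · rw [Function.update_self, h5 j hj']
        exact h6 j hj'
      · rw [Function.update_self, h5 i hi']
        exact (h6 i hi').symm
      · rw [h5 i hi', h5 j hj']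
        exact h2 i hi' j hj' hij

theorem geom (c J : ℕ) : ∑ j ∈ range J, c * 2 ^ j ≤ c * 2 ^ J := by
  rw [← Finset.mul_sum]
  apply Nat.mul_le_mul_left
  have := Nat.geomSum_lt (m := 2) le_rfl (s := range J) (n := J) (fun i hi => by simpa using hi)
  exact this.le

theorem t_SEL : S_SEL := by
  classical
  intro Ω _ _ ℓ q J D hq hD hΩ
  -- the sets `M j`
  set M : ℕ → Finset Ω := fun j => (D J).filter fun x => x ∉ D j ∧ ∀ i, j < i → i ≤ J → x ∈ D i
    with hMdef
  have memM : ∀ {j : ℕ} {x : Ω}, x ∈ M j ↔ x ∈ D J ∧ x ∉ D j ∧ ∀ i, j < i → i ≤ J → x ∈ D i := by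
    intro j x
    rw [hMdef, Finset.mem_filter]
  have hMc : ∀ j : Fin J, (M j).card ≤ (8 * ℓ) * (q * 2 ^ (j : ℕ)) := by
    intro j
    have h1 : M j ⊆ D (j + 1) := by
      intro x hx
      exact (memM.mp hx).2.2 (j + 1) (by omega) (by have := j.2; omega)
    calc (M j).card ≤ (D (j + 1)).card := Finset.card_le_card h1
      _ ≤ ℓ * (4 * q * 2 ^ ((j : ℕ) + 1)) := hD _ (by have := j.2; omega)
      _ = (8 * ℓ) * (q * 2 ^ (j : ℕ)) := by ring
  have hMd : ∀ j j' : Fin J, j ≠ j' → Disjoint (M j) (M j') := by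
    have aux : ∀ j j' : Fin J, j < j' → Disjoint (M j) (M j') := by
      intro j j' hjj'
      rw [Finset.disjoint_left]
      intro x hx hx'
      exact (memM.mp hx').2.1 ((memM.mp hx).2.2 j' hjj' j'.2.le)
    intro j j' hjj'
    rcases lt_or_gt_of_ne hjj' with h | h
    · exact aux j j' h
    · exact (aux j' j h).symm
  choose P0 hP1 hP2 hP3 hP4 using fun j : Fin J => parts (M j) (8 * ℓ) (q * 2 ^ (j : ℕ)) (hMc j)
  set P : Fin J × Fin (8 * ℓ) → Finset Ω := fun i => P0 i.1 i.2 with hP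
  have hPM : ∀ i, P i ⊆ M i.1 := fun i => hP1 i.1 i.2
  have hPd : ∀ i j, i ≠ j → Disjoint (P i) (P j) := by
    rintro ⟨j, k⟩ ⟨j', k'⟩ hne
    by_cases hj : j = j'
    · subst hj
      exact hP2 j k k' fun h => hne (by rw [h])
    · exact (hMd j j' hj).mono (hPM (j, k)) (hPM (j', k'))
  have hPc : ∀ i, (P i).card ≤ q * 2 ^ (i.1 : ℕ) := fun i => hP3 i.1 i.2
  -- fresh points
  set f : Fin J × Fin (8 * ℓ) → ℕ := fun i => 4 * q * 2 ^ (i.1 : ℕ) - (P i).card with hf
  set Z : Finset Ω := univ \ (range (J + 1)).biUnion D with hZ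
  have hUc : ((range (J + 1)).biUnion D).card ≤ ℓ * (4 * q) * 2 ^ (J + 1) := by
    calc ((range (J + 1)).biUnion D).card ≤ ∑ j ∈ range (J + 1), (D j).card :=
          Finset.card_biUnion_le
      _ ≤ ∑ j ∈ range (J + 1), ℓ * (4 * q) * 2 ^ j := by
          apply Finset.sum_le_sum
          intro j hj
          have := hD j (by rw [Finset.mem_range] at hj; omega)
          calc (D j).card ≤ ℓ * (4 * q * 2 ^ j) := this
            _ = ℓ * (4 * q) * 2 ^ j := by ring
      _ ≤ ℓ * (4 * q) * 2 ^ (J + 1) := geom _ _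
  have hfs : ∑ i, f i ≤ 8 * ℓ * (4 * q) * 2 ^ J := by
    calc ∑ i, f i ≤ ∑ i : Fin J × Fin (8 * ℓ), 4 * q * 2 ^ (i.1 : ℕ) :=
          Finset.sum_le_sum fun i _ => Nat.sub_le _ _
      _ = ∑ j : Fin J, ∑ _k : Fin (8 * ℓ), 4 * q * 2 ^ (j : ℕ) := by
          rw [Fintype.sum_prod_type]
      _ = ∑ j : Fin J, 8 * ℓ * (4 * q) * 2 ^ (j : ℕ) := by
          apply Finset.sum_congr rfl
          intro j _
          rw [Finset.sum_const, Finset.card_univ, Fintype.card_fin, smul_eq_mul]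
          ring
      _ = ∑ j ∈ range J, 8 * ℓ * (4 * q) * 2 ^ j := by
          rw [Finset.sum_range]
      _ ≤ 8 * ℓ * (4 * q) * 2 ^ J := geom _ _
  have hZc : ∑ i, f i ≤ Z.card := by
    have h1 : Fintype.card Ω - ((range (J + 1)).biUnion D).card ≤ Z.card := by
      rw [hZ, ← Finset.card_univ]
      exact Finset.le_card_sdiff _ _
    have h2 : 64 * (ℓ + 1) * (4 * q * 2 ^ J) = 256 * (ℓ * q * 2 ^ J) + 256 * (q * 2 ^ J) := by ring
    have h3 : ℓ * (4 * q) * 2 ^ (J + 1) = 8 * (ℓ * q * 2 ^ J) := by ring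
    have h4 : 8 * ℓ * (4 * q) * 2 ^ J = 32 * (ℓ * q * 2 ^ J) := by ring
    rw [h2] at hΩ
    rw [h3] at hUc
    rw [h4] at hfs
    omega
  obtain ⟨F, hF1, hF2⟩ := fresh f Z univ hZc
  have hFZ : ∀ i, F i ⊆ Z := fun i => (hF1 i (Finset.mem_univ i)).1
  have hFD : ∀ i, ∀ j ≤ J, Disjoint (F i) (D j) := by
    intro i j hj
    rw [Finset.disjoint_left]
    intro x hx hxD
    exact (Finset.mem_sdiff.mp (hFZ i hx)).2
      (Finset.mem_biUnion.mpr ⟨j, Finset.mem_range.mpr (by omega), hxD⟩)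
  have hPF : ∀ i j, Disjoint (P i) (F j) := by
    intro i j
    rw [Finset.disjoint_left]
    intro x hx hxF
    exact Finset.disjoint_left.mp (hFD j J le_rfl) hxF (memM.mp (hPM i hx)).1
  refine ⟨P, F, ?_, hPF, hPc, ?_, ?_, hFD, ?_⟩
  · intro i j hij
    rw [Finset.disjoint_union_left, Finset.disjoint_union_right, Finset.disjoint_union_right]
    exact ⟨⟨hPd i j hij, hPF i j⟩, (hPF j i).symm,
      hF2 i (Finset.mem_univ i) j (Finset.mem_univ j) hij⟩
  · intro i
    rw [Finset.card_union_of_disjoint (hPF i i), (hF1 i (Finset.mem_univ i)).2, hf]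
    have h1 := hPc i
    have h2 : q * 2 ^ (i.1 : ℕ) ≤ 4 * q * 2 ^ (i.1 : ℕ) := by
      calc q * 2 ^ (i.1 : ℕ) ≤ 4 * (q * 2 ^ (i.1 : ℕ)) := by omega
        _ = 4 * q * 2 ^ (i.1 : ℕ) := by ring
    show (P i).card + (4 * q * 2 ^ (i.1 : ℕ) - (P i).card) = _
    omega
  · intro i
    rw [Finset.disjoint_left]
    intro x hx hxD
    exact (memM.mp (hPM i hx)).2.1 hxD
  · intro x hxJ hx0
    set j := Nat.findGreatest (fun j => x ∉ D j) J with hj
    have h1 : x ∉ D j := Nat.findGreatest_spec (P := fun j => x ∉ D j) (Nat.zero_le J) hx0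
    have h2 : j ≤ J := Nat.findGreatest_le J
    have h3 : j ≠ J := by
      intro h
      rw [h] at h1
      exact h1 hxJ
    have h4 : ∀ i, j < i → i ≤ J → x ∈ D i := by
      intro i hi hiJ
      by_contra hcon
      exact Nat.findGreatest_is_greatest (P := fun j => x ∉ D j) hi hiJ hcon
    have h5 : x ∈ M (⟨j, by omega⟩ : Fin J) := memM.mpr ⟨hxJ, h1, h4⟩
    obtain ⟨k, hk⟩ := hP4 ⟨j, by omega⟩ x h5
    exact ⟨(⟨j, by omega⟩, k), hk⟩

end Pool.Agent.Y555.DG.Sel
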