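import Pool.Agent.Y53.DG.Stm

/-! Project DG (helper53): DG-TREE and DG-BAD (helper555). -/

set_option autoImplicit false

namespace Pool.Agent.Y555.DG.Tree

open Finset Equiv Equiv.Perm Pool.Agent.H84R2.Bab Pool.Agent.Y53.DG

theorem t_TREE (h : S_AB) : S_TREE := by
  intro Ω _ _ S W b k j hb hbW hgood
  induction j with
  | zero =>
    intro A hAW hA
    simp only [pow_zero, one_mul] at hA ⊢
    obtain ⟨B, h1, h2, h3⟩ := Finset.exists_subsuperset_card_eq hAW hA hbW
    exact (hgood B h2 h3).mono h1 le_rfl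
  | succ j ih =>
    intro A hAW hA
    obtain ⟨m, hm⟩ : ∃ m, m = 4 ^ j * b / 3 ^ j := ⟨_, rfl⟩
    have h3 : 0 < 3 ^ j := by positivity
    have hmb : b ≤ m := by
      rw [hm, Nat.le_div_iff_mul_le h3, mul_comm]
      exact Nat.mul_le_mul_right b (Nat.pow_le_pow_left (by omega) j)
    have hm1 : 3 ^ j * m ≤ 4 ^ j * b := by
      rw [hm]
      exact Nat.mul_div_le _ _
    have hm2 : 4 ^ j * b < 3 ^ j * (m + 1) := by
      rw [hm]
      exact Nat.lt_mul_div_succ _ h3
    have hk : 3 ^ (j + 1) * k = 2 * (3 ^ j * k) + 3 ^ j * k := by ring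
    rcases Nat.lt_or_ge m A.card with ham | ham
    · have h5 : 3 * A.card < 4 * (m + 1) := by
        have h6 : 3 ^ j * (3 * A.card) < 3 ^ j * (4 * (m + 1)) := by
          calc 3 ^ j * (3 * A.card) = 3 ^ (j + 1) * A.card := by ring
            _ ≤ 4 ^ (j + 1) * b := hA
            _ = 4 * (4 ^ j * b) := by ring
            _ < 4 * (3 ^ j * (m + 1)) := by omega
            _ = 3 ^ j * (4 * (m + 1)) := by ring
        exact lt_of_mul_lt_mul_left h6 (Nat.zero_le _)
      obtain ⟨A1, hA1, hA1c⟩ := Finset.exists_subset_card_eq ham.le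
      have hsd : (A \ A1).card = A.card - m := by
        rw [Finset.card_sdiff_of_subset hA1, hA1c]
      obtain ⟨A2, h7, h8, h9⟩ := Finset.exists_subsuperset_card_eq
        (s := A \ A1) (t := A) (n := m) Finset.sdiff_subset (by omega) ham.le
      have h10 : (A2 \ A1).card ≤ A.card - m := by
        rw [← hsd]
        exact Finset.card_le_card (Finset.sdiff_subset_sdiff h8 le_rfl)
      have h11 : (A2 \ A1).card + (A2 ∩ A1).card = A2.card := Finset.card_sdiff_add_card_inter _ _
      rw [Finset.inter_comm] at h11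
      have h12 : (A2 \ A1).card + 2 ≤ (A1 ∩ A2).card := by omega
      have g1 := ih A1 (hA1.trans hAW) (by rw [hA1c]; exact hm1)
      have g2 := ih A2 (h8.trans hAW) (by rw [h9]; exact hm1)
      have g3 := h Ω S A1 A2 (3 ^ j * k) (3 ^ j * k) h12 g1 g2
      have h13 : A1 ∪ A2 = A := by
        apply Finset.Subset.antisymm (Finset.union_subset hA1 h8)
        intro x hx
        by_cases hx1 : x ∈ A1
        · exact Finset.mem_union_left _ hx1
        · exact Finset.mem_union_right _ (h7 (Finset.mem_sdiff.mpr ⟨hx, hx1⟩))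
      rw [h13] at g3
      rw [hk]
      exact g3
    · have g1 := ih A hAW ((Nat.mul_le_mul_left _ ham).trans hm1)
      exact g1.mono le_rfl (by rw [hk]; omega)

/-- no `ℓ + 1` pairwise disjoint bad sets -/
theorem no_bad (h : S_BLOCK) (Ω : Type) [Fintype Ω] [DecidableEq Ω] (S : Set (Perm Ω))
    (Γ : Subgroup (Perm Ω)) (ℓ b : ℕ) (h1 : alternatingGroup Ω ≤ Γ) (h2 : S ⊆ Γ)
    (h3 : Nat.card Γ ≤ 2 ^ ℓ * S.ncard) (h4 : 512 * (ℓ + 1) ^ 2 ≤ b)
    (R : Fin (ℓ + 1) → Finset Ω) (hd : ∀ i j, i ≠ j → Disjoint (R i) (R j))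
    (hc : ∀ i, (R i).card = b) : ∃ i, Good S 4 (R i) := by
  have hb : 0 < b := lt_of_lt_of_le (by positivity) h4
  have hsum : ∑ i, √(128 / ((R i).card : ℝ)) ≤ 1 / 2 := by
    have h5 : ∀ i, √(128 / ((R i).card : ℝ)) ≤ 1 / (2 * ((ℓ : ℝ) + 1)) := by
      intro i
      rw [hc i]
      apply Real.sqrt_le_iff.mpr
      refine ⟨by positivity, ?_⟩
      have h6 : (512 * ((ℓ : ℝ) + 1) ^ 2) ≤ b := by exact_mod_cast h4
      have h7 : (0 : ℝ) < b := by exact_mod_cast hb
      rw [div_pow, one_pow, div_le_div_iff₀ h7 (by positivity)]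
      nlinarith
    calc ∑ i, √(128 / ((R i).card : ℝ)) ≤ ∑ _i : Fin (ℓ + 1), 1 / (2 * ((ℓ : ℝ) + 1)) :=
          Finset.sum_le_sum fun i _ => h5 i
      _ = 1 / 2 := by
          rw [Finset.sum_const, Finset.card_univ, Fintype.card_fin, nsmul_eq_mul]
          push_cast
          field_simp
  obtain ⟨E, hE, hE2⟩ := h Ω S Γ ℓ h1 h2 h3 (Fin (ℓ + 1)) R hd hsum
    (fun i => Finset.card_pos.mp (by rw [hc i]; exact hb))
  obtain ⟨i, hi⟩ : ∃ i, i ∉ E := by
    by_contra hcon
    push Not at hcon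
    have : E = univ := Finset.eq_univ_iff_forall.mpr hcon
    rw [this, Finset.card_univ, Fintype.card_fin] at hE
    omega
  refine ⟨i, fun σ hσ => hE2 (fun j => if j = i then σ else 1) (fun j => ?_) σ
    (fun j hj x hx => ?_) (fun x hx => ?_)⟩
  · by_cases hj : j = i
    · subst hj
      simpa using hσ
    · simp only [hj, if_false]
      exact one_mem _
  · by_cases hji : j = i
    · subst hji
      simp
    · simp only [hji, if_false, Perm.one_apply]
      exact (mem_altOn.mp hσ).2 x fun hxi => Finset.disjoint_left.mp (hd j i hji) hx hxi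
  · exact (mem_altOn.mp hσ).2 x (hx i hi)

theorem t_BAD (h : S_BLOCK) : S_BAD := by
  classical
  intro Ω _ _ S Γ ℓ b h1 h2 h3 h4
  have hb : 0 < b := lt_of_lt_of_le (by positivity) h4
  set 𝓕 : Finset (Finset (Finset Ω)) := univ.filter fun F =>
    (∀ A ∈ F, ∀ B ∈ F, A ≠ B → Disjoint A B) ∧ ∀ A ∈ F, A.card = b ∧ ¬ Good S 4 A with h𝓕
  have hne : 𝓕.Nonempty := ⟨∅, by simp [h𝓕]⟩
  obtain ⟨F, hF, hmax⟩ := Finset.exists_max_image 𝓕 Finset.card hne
  have hF' := (Finset.mem_filter.mp hF).2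
  have hFc : F.card ≤ ℓ := by
    by_contra hcon
    obtain ⟨F', hF1, hF2⟩ := Finset.exists_subset_card_eq (s := F) (n := ℓ + 1) (by omega)
    have e : Fin (ℓ + 1) ≃ F' := (Finset.equivFinOfCardEq hF2).symm
    obtain ⟨i, hi⟩ := no_bad h Ω S Γ ℓ b h1 h2 h3 h4 (fun i => (e i).1)
      (fun i j hij => hF'.1 _ (hF1 (e i).2) _ (hF1 (e j).2)
        (fun heq => hij (e.injective (Subtype.ext heq))))
      (fun i => (hF'.2 _ (hF1 (e i).2)).1)
    exact (hF'.2 _ (hF1 (e i).2)).2 hi
  refine ⟨F.biUnion id, ?_, fun R hR hd => ?_⟩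
  · calc (F.biUnion id).card ≤ F.card * b :=
        Finset.card_biUnion_le_card_mul F id b fun A hA => (hF'.2 A hA).1.le
      _ ≤ ℓ * b := Nat.mul_le_mul_right b hFc
  · by_contra hbad
    have hdis : ∀ A ∈ F, Disjoint R A := fun A hA =>
      hd.mono_right (Finset.subset_biUnion_of_mem id hA)
    have hRF : R ∉ F := by
      intro hRF
      have h5 := hdis R hRF
      rw [disjoint_self] at h5
      have h6 : R = ∅ := h5
      rw [h6, Finset.card_empty] at hR
      omega
    have hmem : insert R F ∈ 𝓕 := by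
      rw [h𝓕, Finset.mem_filter]
      refine ⟨Finset.mem_univ _, ?_, ?_⟩
      · intro A hA B hB hAB
        rcases Finset.mem_insert.mp hA with rfl | hA' <;> rcases Finset.mem_insert.mp hB with rfl | hB'
        · exact absurd rfl hAB
        · exact hdis B hB'
        · exact (hdis A hA').symm
        · exact hF'.1 A hA' B hB' hAB
      · intro A hA
        rcases Finset.mem_insert.mp hA with rfl | hA'
        · exact ⟨hR, hbad⟩
        · exact hF'.2 A hA'
    have h7 := hmax _ hmem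
    rw [Finset.card_insert_of_notMem hRF] at h7
    omega

end Pool.Agent.Y555.DG.Tree
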